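import Pool.Agent.Helper34.LD.WA

/-!
# Project LD, block GC: the gain (from the pair correlations)
-/

set_option autoImplicit false

namespace Pool.Agent.Helper52.LD

open Set MeasureTheory Filter Topology Pool.Agent.Helper41.LD

/-- at every point at most one Haar function of a level is not zero -/
theorem haar_disj (k : ℕ) (ε : ℕ → ℝ) (hε : ∀ i, |ε i| ≤ 1) (m : ℕ) (t : ℝ) :
    |∑ i ∈ Finset.range m, ε i * haar k i t| ≤ 1 := by
  set i₀ : ℕ := (⌊(2 : ℝ) ^ (k + 1) * Int.fract t⌋ / 2).toNat with hi₀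
  have hz : ∀ i : ℕ, i ≠ i₀ → haar k i t = 0 := by
    intro i hi
    unfold haar ind
    have h1 : ¬ ⌊(2 : ℝ) ^ (k + 1) * Int.fract t⌋ = ((2 * i : ℕ) : ℤ) := by
      intro h
      apply hi
      rw [hi₀, h]
      push_cast
      omega
    have h2 : ¬ ⌊(2 : ℝ) ^ (k + 1) * Int.fract t⌋ = ((2 * i + 1 : ℕ) : ℤ) := by
      intro h
      apply hi
      rw [hi₀, h]
      push_cast
      omega
    rw [if_neg h1, if_neg h2, sub_zero]
  have hb : |ε i₀ * haar k i₀ t| ≤ 1 := by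
    rw [abs_mul]
    exact mul_le_one₀ (hε _) (abs_nonneg _) (Helper34.LD.haar_abs_le k i₀ t)
  by_cases h : i₀ ∈ Finset.range m
  · rw [Finset.sum_eq_single_of_mem i₀ h (fun i _ hi => by rw [hz i hi, mul_zero])]
    exact hb
  · rw [Finset.sum_eq_zero]
    · simp
    · intro i hi
      have : i ≠ i₀ := fun e => h (e ▸ hi)
      rw [hz i this, mul_zero]

/-- the signed sum of the averages of one level is at most `1` -/
theorem A_sum_le (θ : ℝ) (c : ℕ → ℝ) (k j : ℕ) (ε : ℕ → ℝ) (hε : ∀ i, |ε i| ≤ 1) (m : ℕ) {a ℓ : ℝ} (hℓ : 0 < ℓ) :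
    |∑ i ∈ Finset.range m, ε i * A θ c k i j a ℓ| ≤ 1 := by
  have e : ∑ i ∈ Finset.range m, ε i * A θ c k i j a ℓ =
      (∫ x in a..(a + ℓ), ∑ i ∈ Finset.range m, ε i * haar k i (u θ c j x)) / ℓ := by
    rw [intervalIntegral.integral_finsetSum fun i _ => (Helper34.LD.ii_haar_u θ c k i j a (a + ℓ)).const_mul _, Finset.sum_div]
    refine Finset.sum_congr rfl fun i _ => ?_
    rw [intervalIntegral.integral_const_mul]
    unfold A av
    ring
  rw [e, abs_div, abs_of_pos hℓ, div_le_one hℓ]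
  have h := intervalIntegral.norm_integral_le_of_norm_le_const (a := a) (b := a + ℓ)
    (f := fun x => ∑ i ∈ Finset.range m, ε i * haar k i (u θ c j x)) (C := 1)
    fun x _ => by rw [Real.norm_eq_abs]; exact haar_disj k ε hε m _
  rw [Real.norm_eq_abs, one_mul, add_sub_cancel_left, abs_of_pos hℓ] at h
  exact h

theorem mem_idx {K : ℕ} {p : Σ _ : ℕ, ℕ} : p ∈ idx K ↔ p.1 < K ∧ p.2 < 2 ^ p.1 := by
  unfold idx
  rw [Finset.mem_sigma, Finset.mem_range, Finset.mem_range]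

theorem sum_idx (K : ℕ) (f : (Σ _ : ℕ, ℕ) → ℝ) :
    ∑ p ∈ idx K, f p = ∑ k ∈ Finset.range K, ∑ i ∈ Finset.range (2 ^ k), f ⟨k, i⟩ := by
  unfold idx
  rw [Finset.sum_sigma]

/-- the abstract gain -/
theorem gain_abs {K B : ℕ} (hK : 1 ≤ K) (hB : 1 ≤ B) (g : (Σ _ : ℕ, ℕ) → ℝ) (δ : (Σ _ : ℕ, ℕ) → ℕ → ℝ) (T : ℕ → ℕ → ℕ → ℝ)
    (hT : ∀ k < K, ∀ ε : ℕ → ℝ, (∀ i, |ε i| ≤ 1) → ∀ b < B, |∑ i ∈ Finset.range (2 ^ k), ε i * T k i b| ≤ 1)
    (hc : ∀ p ∈ idx K, ∀ k < K, ∀ i < 2 ^ k, |(∑ b ∈ Finset.range B, δ p b * T k i b) / B -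
      (if p.1 = k ∧ p.2 = i then (1 / 2) ^ p.1 else 0)| ≤ (1 / 2) ^ (4 * K)) :
    1 / (2 * K) * (∑ p ∈ idx K, |g p| * (1 / 2) ^ p.1) * B ≤ ∑ b ∈ Finset.range B, |∑ p ∈ idx K, g p * δ p b| := by
  have hB0 : (0 : ℝ) < B := by exact_mod_cast hB
  have hK0 : (0 : ℝ) < K := by exact_mod_cast hK
  set S : ℝ := ∑ b ∈ Finset.range B, |∑ p ∈ idx K, g p * δ p b| with hS
  set G : ℝ := ∑ p ∈ idx K, |g p| * (1 / 2) ^ p.1 with hG
  set Ga : ℝ := ∑ p ∈ idx K, |g p| with hGa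
  -- one level
  have level : ∀ k ∈ Finset.range K, B * (∑ i ∈ Finset.range (2 ^ k), |g ⟨k, i⟩| * (1 / 2) ^ k) -
      B * ((1 / 2) ^ (4 * K) * Ga * 2 ^ k) ≤ S := by
    intro k hk
    rw [Finset.mem_range] at hk
    set ε : ℕ → ℝ := fun i => if 0 ≤ g ⟨k, i⟩ then 1 else -1 with hε
    have hε1 : ∀ i, |ε i| ≤ 1 := by
      intro i
      rw [hε]
      dsimp only
      split_ifs <;> simp
    have hεg : ∀ i, g ⟨k, i⟩ * ε i = |g ⟨k, i⟩| := by
      intro i
      rw [hε]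
      dsimp only
      split_ifs with h
      · rw [mul_one, abs_of_nonneg h]
      · rw [mul_neg, mul_one, abs_of_neg (not_le.1 h)]
    have h1 : ∑ b ∈ Finset.range B, (∑ p ∈ idx K, g p * δ p b) * (∑ i ∈ Finset.range (2 ^ k), ε i * T k i b) ≤ S := by
      rw [hS]
      refine Finset.sum_le_sum fun b hb => ?_
      rw [Finset.mem_range] at hb
      calc (∑ p ∈ idx K, g p * δ p b) * (∑ i ∈ Finset.range (2 ^ k), ε i * T k i b)
          ≤ |(∑ p ∈ idx K, g p * δ p b) * (∑ i ∈ Finset.range (2 ^ k), ε i * T k i b)| := le_abs_self _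
        _ = |∑ p ∈ idx K, g p * δ p b| * |∑ i ∈ Finset.range (2 ^ k), ε i * T k i b| := abs_mul _ _
        _ ≤ |∑ p ∈ idx K, g p * δ p b| * 1 := mul_le_mul_of_nonneg_left (hT k hk ε hε1 b hb) (abs_nonneg _)
        _ = _ := mul_one _
    have h2 : ∑ b ∈ Finset.range B, (∑ p ∈ idx K, g p * δ p b) * (∑ i ∈ Finset.range (2 ^ k), ε i * T k i b) =
        ∑ p ∈ idx K, ∑ i ∈ Finset.range (2 ^ k), B * (g p * ε i * ((∑ b ∈ Finset.range B, δ p b * T k i b) / B)) := by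
      have e1 : ∀ b, (∑ p ∈ idx K, g p * δ p b) * (∑ i ∈ Finset.range (2 ^ k), ε i * T k i b) =
          ∑ p ∈ idx K, ∑ i ∈ Finset.range (2 ^ k), g p * ε i * (δ p b * T k i b) := by
        intro b
        rw [Finset.sum_mul_sum]
        refine Finset.sum_congr rfl fun p _ => Finset.sum_congr rfl fun i _ => ?_
        ring
      rw [Finset.sum_congr rfl fun b _ => e1 b, Finset.sum_comm]
      refine Finset.sum_congr rfl fun p _ => ?_
      rw [Finset.sum_comm]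
      refine Finset.sum_congr rfl fun i _ => ?_
      rw [← Finset.mul_sum]
      field_simp
    have h3 : ∑ p ∈ idx K, ∑ i ∈ Finset.range (2 ^ k), B * (g p * ε i * (if p.1 = k ∧ p.2 = i then (1 / 2 : ℝ) ^ p.1 else 0)) =
        B * (∑ i ∈ Finset.range (2 ^ k), |g ⟨k, i⟩| * (1 / 2) ^ k) := by
      rw [Finset.sum_comm, Finset.mul_sum]
      refine Finset.sum_congr rfl fun i hi => ?_
      rw [Finset.mem_range] at hi
      have hmem : (⟨k, i⟩ : Σ _ : ℕ, ℕ) ∈ idx K := mem_idx.2 ⟨hk, hi⟩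
      rw [Finset.sum_eq_single_of_mem _ hmem]
      · rw [if_pos ⟨rfl, rfl⟩, hεg]
      · rintro ⟨k', i'⟩ _ hne
        rw [if_neg, mul_zero, mul_zero]
        rintro ⟨h4, h5⟩
        dsimp only at h4 h5
        subst h4 h5
        exact hne rfl
    have h4 : ∑ p ∈ idx K, ∑ i ∈ Finset.range (2 ^ k), B * (g p * ε i * (if p.1 = k ∧ p.2 = i then (1 / 2 : ℝ) ^ p.1 else 0)) -
        ∑ p ∈ idx K, ∑ i ∈ Finset.range (2 ^ k), B * (g p * ε i * ((∑ b ∈ Finset.range B, δ p b * T k i b) / B)) ≤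
        B * ((1 / 2) ^ (4 * K) * Ga * 2 ^ k) := by
      rw [← Finset.sum_sub_distrib, hGa, Finset.mul_sum, Finset.sum_mul, Finset.mul_sum]
      refine Finset.sum_le_sum fun p hp => ?_
      rw [← Finset.sum_sub_distrib]
      calc ∑ i ∈ Finset.range (2 ^ k), (B * (g p * ε i * (if p.1 = k ∧ p.2 = i then (1 / 2 : ℝ) ^ p.1 else 0)) -
            B * (g p * ε i * ((∑ b ∈ Finset.range B, δ p b * T k i b) / B)))
          ≤ ∑ _i ∈ Finset.range (2 ^ k), B * (|g p| * (1 / 2) ^ (4 * K)) := by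
            refine Finset.sum_le_sum fun i hi => ?_
            rw [Finset.mem_range] at hi
            rw [← mul_sub, ← mul_sub]
            refine mul_le_mul_of_nonneg_left ?_ hB0.le
            have h5 := hc p hp k hk i hi
            rw [abs_sub_comm] at h5
            calc g p * ε i * ((if p.1 = k ∧ p.2 = i then (1 / 2 : ℝ) ^ p.1 else 0) - (∑ b ∈ Finset.range B, δ p b * T k i b) / B)
                ≤ |g p * ε i * ((if p.1 = k ∧ p.2 = i then (1 / 2 : ℝ) ^ p.1 else 0) - (∑ b ∈ Finset.range B, δ p b * T k i b) / B)| :=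
                  le_abs_self _
              _ = |g p| * |ε i| * |(if p.1 = k ∧ p.2 = i then (1 / 2 : ℝ) ^ p.1 else 0) - (∑ b ∈ Finset.range B, δ p b * T k i b) / B| := by
                  rw [abs_mul, abs_mul]
              _ ≤ |g p| * 1 * (1 / 2) ^ (4 * K) := by
                  refine mul_le_mul (mul_le_mul_of_nonneg_left (hε1 i) (abs_nonneg _)) h5 (abs_nonneg _) ?_
                  rw [mul_one]; exact abs_nonneg _
              _ = |g p| * (1 / 2) ^ (4 * K) := by ring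
        _ = B * ((1 / 2) ^ (4 * K) * |g p| * 2 ^ k) := by
            rw [Finset.sum_const, Finset.card_range, nsmul_eq_mul]
            push_cast
            ring
    rw [h2] at h1
    linarith
  have hsum : ∑ k ∈ Finset.range K, (B * (∑ i ∈ Finset.range (2 ^ k), |g ⟨k, i⟩| * (1 / 2) ^ k) -
      B * ((1 / 2) ^ (4 * K) * Ga * 2 ^ k)) ≤ K * S := by
    have := Finset.sum_le_sum level
    rwa [Finset.sum_const, Finset.card_range, nsmul_eq_mul] at this
  have e1 : ∑ k ∈ Finset.range K, (B * (∑ i ∈ Finset.range (2 ^ k), |g ⟨k, i⟩| * (1 / 2) ^ k) -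
      B * ((1 / 2) ^ (4 * K) * Ga * 2 ^ k)) = B * G - B * ((1 / 2) ^ (4 * K) * Ga * ∑ k ∈ Finset.range K, (2 : ℝ) ^ k) := by
    rw [Finset.sum_sub_distrib]
    congr 1
    · rw [hG, sum_idx, Finset.mul_sum]
    · rw [← Finset.mul_sum, ← Finset.mul_sum]
  have hgeo : ∑ k ∈ Finset.range K, (2 : ℝ) ^ k ≤ 2 ^ K := by
    rw [geom_sum_eq (by norm_num)]
    have : (0 : ℝ) < 2 ^ K := by positivity
    norm_num
  have hGa0 : 0 ≤ Ga := Finset.sum_nonneg fun p _ => abs_nonneg _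
  have hG0 : 0 ≤ G := Finset.sum_nonneg fun p _ => by positivity
  have hGaG : Ga ≤ 2 ^ K * G := by
    rw [hGa, hG, Finset.mul_sum]
    refine Finset.sum_le_sum fun p hp => ?_
    have hp1 := (mem_idx.1 hp).1
    have h6 : (1 : ℝ) ≤ 2 ^ K * (1 / 2) ^ p.1 := by
      rw [one_div, inv_pow, ← div_eq_mul_inv, one_le_div (by positivity)]
      exact pow_le_pow_right₀ (by norm_num) hp1.le
    calc |g p| = |g p| * 1 := (mul_one _).symm
      _ ≤ |g p| * (2 ^ K * (1 / 2) ^ p.1) := mul_le_mul_of_nonneg_left h6 (abs_nonneg _)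
      _ = _ := by ring
  have hsmall : (1 / 2 : ℝ) ^ (4 * K) * Ga * ∑ k ∈ Finset.range K, (2 : ℝ) ^ k ≤ 1 / 2 * G := by
    calc (1 / 2 : ℝ) ^ (4 * K) * Ga * ∑ k ∈ Finset.range K, (2 : ℝ) ^ k
        ≤ (1 / 2 : ℝ) ^ (4 * K) * (2 ^ K * G) * 2 ^ K := by
          refine mul_le_mul (mul_le_mul_of_nonneg_left hGaG (by positivity)) hgeo ?_ (by positivity)
          exact Finset.sum_nonneg fun k _ => by positivity
      _ = (1 / 2 : ℝ) ^ (2 * K) * G := by
          have : (1 / 2 : ℝ) ^ (4 * K) = (1 / 2) ^ (2 * K) * ((1 / 2) ^ K * (1 / 2) ^ K) := by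
            rw [← pow_add, ← pow_add]; congr 1; ring
          rw [this]
          have h7 : (1 / 2 : ℝ) ^ K * 2 ^ K = 1 := by rw [← mul_pow]; norm_num
          calc (1 / 2 : ℝ) ^ (2 * K) * ((1 / 2) ^ K * (1 / 2) ^ K) * (2 ^ K * G) * 2 ^ K
              = (1 / 2 : ℝ) ^ (2 * K) * G * ((1 / 2) ^ K * 2 ^ K) * ((1 / 2) ^ K * 2 ^ K) := by ring
            _ = _ := by rw [h7]; ring
      _ ≤ 1 / 2 * G := by
          refine mul_le_mul_of_nonneg_right ?_ hG0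
          calc (1 / 2 : ℝ) ^ (2 * K) ≤ (1 / 2) ^ 1 := pow_le_pow_of_le_one (by norm_num) (by norm_num) (by omega)
            _ = 1 / 2 := pow_one _
  have hfin : B * (1 / 2 * G) ≤ K * S := by
    have := mul_le_mul_of_nonneg_left hsmall hB0.le
    linarith
  calc 1 / (2 * K) * G * B = (B * (1 / 2 * G)) / K := by field_simp
    _ ≤ (K * S) / K := div_le_div_of_nonneg_right hfin hK0.le
    _ = S := by field_simp

/-- the gain, from the pair correlations of this window -/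
theorem gain_of {θ : ℝ} {c : ℕ → ℝ} {K n L r Q₀ : ℕ} {ε : ℝ} (P : Par θ K n L r Q₀ ε) {a ℓ : ℝ} {B : ℕ} (hB : 1 ≤ B)
    (hw' : Win θ (n + L) (ℓ / B))
    (hpc : ∀ k i k' i' : ℕ, k < K → i < 2 ^ k → k' < K → i' < 2 ^ k' →
      |(∑ b ∈ Finset.range B, (M θ c k i (a + b * (ℓ / B)) (ℓ / B) - M θ c k i a ℓ) *
        A θ c k' i' (n + L - r) (a + b * (ℓ / B)) (ℓ / B)) / B -
      (if k = k' ∧ i = i' then (1 / 2) ^ k else 0)| ≤ (1 / 2) ^ (4 * K)) (g : (Σ _ : ℕ, ℕ) → ℝ) :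
    1 / (2 * K) * (∑ p ∈ idx K, |g p| * (1 / 2) ^ p.1) * B ≤
      ∑ b ∈ Finset.range B, |∑ p ∈ idx K, g p * (M θ c p.1 p.2 (a + b * (ℓ / B)) (ℓ / B) - M θ c p.1 p.2 a ℓ)| := by
  have hθ0 : 0 < θ ^ (n + L) := pow_pos (lt_trans one_pos P.hθ) _
  have hℓB : 0 < ℓ / B := by
    by_contra h
    have h1 := hw'.1
    have h2 : θ ^ (n + L) * (ℓ / B) ≤ 0 := mul_nonpos_of_nonneg_of_nonpos hθ0.le (not_lt.1 h)
    linarith
  refine gain_abs P.hK hB g (fun p b => M θ c p.1 p.2 (a + b * (ℓ / B)) (ℓ / B) - M θ c p.1 p.2 a ℓ)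
    (fun k i b => A θ c k i (n + L - r) (a + b * (ℓ / B)) (ℓ / B)) ?_ ?_
  · intro k _ ε' hε' b _
    exact A_sum_le θ c k (n + L - r) ε' hε' (2 ^ k) hℓB
  · intro p hp k hk i hi
    exact hpc p.1 p.2 k i (mem_idx.1 hp).1 (mem_idx.1 hp).2 hk hi

end Pool.Agent.Helper52.LD
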