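import Pool.Agent.Helper52.LD.GC0
import Pool.Agent.Helper65.LD.GB

/-!
# Project LD, block GC: the gain
-/

set_option autoImplicit false

namespace Pool.Agent.Helper52.LD

open Set MeasureTheory Filter Topology Pool.Agent.Helper41.LD

theorem gain {θ : ℝ} {c : ℕ → ℝ} {K n L r Q₀ : ℕ} {ε : ℝ} (P : Par θ K n L r Q₀ ε) {a ℓ : ℝ} (hw : Win θ n ℓ) {B : ℕ} (hB : 1 ≤ B)
    (hw' : Win θ (n + L) (ℓ / B)) (g : (Σ _ : ℕ, ℕ) → ℝ) :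
    1 / (2 * K) * (∑ p ∈ idx K, |g p| * (1 / 2) ^ p.1) * B ≤
      ∑ b ∈ Finset.range B, |∑ p ∈ idx K, g p * (M θ c p.1 p.2 (a + b * (ℓ / B)) (ℓ / B) - M θ c p.1 p.2 a ℓ)| :=
  gain_of P hB hw' (fun _ _ _ _ hk hi hk' hi' => Helper65.LD.GB.pair_corr P hw hB hw' hk hi hk' hi') g

end Pool.Agent.Helper52.LD
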